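import Pool.Agent.Helper4.Flip.Sh.TStep

/-!
# SHORTEST: upper bound for the number of flips of the twin phase
-/

set_option autoImplicit false

namespace Pool.Agent.Helper20.Flip.Sh

/-- concatenation of sequences of flips -/
theorem tup_cseq_trans {N m n : ℕ} {c c' c'' : List Edge} (h : CSeq N m c c') (h' : CSeq N n c' c'') :
    CSeq N (m + n) c c'' := by
  induction h with
  | refl c => simpa using h'
  | step h1 h2 _ ih =>
    have := CSeq.step h1 h2 (ih h')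
    rwa [show ∀ a b : ℕ, a + b + 1 = a + 1 + b from fun a b => by omega] at this

/-- the range of the three velocities of one bouncer -/
def TupBR (z0 a0 v₁ d₁ W : ℝ) (z p a : ℝ) : Prop :=
  z0 - W ≤ z ∧ v₁ ≤ a - z ∧ a - z ≤ W ∧ a ≤ a0 + W ∧ z0 - W - d₁ ≤ p ∧ p ≤ a0 + W + d₁

/-- one bouncer: at most `k` flips until the particle is inside -/
theorem tup_bounce {N : ℕ} {κ z0 a0 v₁ d₁ U W C : ℝ} (F : ℝ → ℝ → ℝ → List Edge)
    (hv₁ : 0 < v₁) (hd₁ : 0 ≤ d₁) (hκ : 0 ≤ κ) (hC : κ * d₁ = C * v₁) (hC0 : 0 ≤ C)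
    (hW : U + κ * d₁ ≤ W)
    (hok : ∀ z p a, TupBR z0 a0 v₁ d₁ W z p a → Ok N (F z p a))
    (hpa : ∀ z p a, TupBR z0 a0 v₁ d₁ W z p a → a < p → ∃ p' a', CStep (F z p a) (F z p' a') ∧
      a ≤ a' ∧ a' ≤ a + κ * (p - a) ∧ a' - p' = p - a)
    (hzp : ∀ z p a, TupBR z0 a0 v₁ d₁ W z p a → p < z → ∃ z' p', CStep (F z p a) (F z' p' a) ∧
      z' ≤ z ∧ z - κ * (z - p) ≤ z' ∧ p' - z' = z - p) (k : ℕ) :
    ∀ z p a d, v₁ ≤ a - z → a - z + C * d ≤ U → z0 - (a - z - v₁) ≤ z → a ≤ a0 + (a - z - v₁) →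
      d ≤ d₁ → d ≤ k * v₁ → -(a - z) ≤ d → a - z ≤ W → (p = a + d ∨ p = z - d) →
      ∃ m z' p' a', m ≤ k ∧ CSeq N m (F z p a) (F z' p' a') ∧ TupBR z0 a0 v₁ d₁ W z' p' a' ∧
        z' ≤ p' ∧ p' ≤ a' := by
  induction k with
  | zero =>
    intro z p a d h1 h2 h3 h4 h5 h6 h7 h8 h9
    simp only [Nat.cast_zero, zero_mul] at h6
    refine ⟨0, z, p, a, le_refl _, CSeq.refl _, ?_, ?_, ?_⟩
    · refine ⟨by linarith, h1, h8, by linarith, ?_, ?_⟩
      · rcases h9 with h9 | h9 <;> linarith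
      · rcases h9 with h9 | h9 <;> linarith
    · rcases h9 with h9 | h9 <;> linarith
    · rcases h9 with h9 | h9 <;> linarith
  | succ k ih =>
    intro z p a d h1 h2 h3 h4 h5 h6 h7 h8 h9
    push_cast at h6
    have hbr : TupBR z0 a0 v₁ d₁ W z p a := by
      refine ⟨by linarith, h1, h8, by linarith, ?_, ?_⟩
      · rcases h9 with h9 | h9 <;> linarith
      · rcases h9 with h9 | h9 <;> linarith
    by_cases hd : d ≤ 0
    · refine ⟨0, z, p, a, Nat.zero_le _, CSeq.refl _, hbr, ?_, ?_⟩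
      · rcases h9 with h9 | h9 <;> linarith
      · rcases h9 with h9 | h9 <;> linarith
    · rw [not_le] at hd
      have key : ∀ v', a - z ≤ v' → v' ≤ a - z + κ * d → v' + C * (d - v') ≤ U ∧ v' ≤ W := by
        intro v' hv hv'
        have e1 : κ * d ≤ κ * d₁ := mul_le_mul_of_nonneg_left h5 hκ
        have e2 : C * v₁ ≤ C * v' := mul_le_mul_of_nonneg_left (by linarith) hC0
        have e3 : 0 ≤ C * d := mul_nonneg hC0 hd.le
        exact ⟨by linarith [mul_sub C d v'], by linarith⟩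
      rcases h9 with h9 | h9
      · obtain ⟨p', a', hs, ha, ha', hp'⟩ := hpa z p a hbr (by linarith)
        have hpd : p - a = d := by linarith
        rw [hpd] at ha' hp'
        obtain ⟨e1, e2⟩ := key (a' - z) (by linarith) (by linarith)
        obtain ⟨m, z₂, p₂, a₂, hm, hs₂, hb₂, hz₂, ha₂⟩ := ih z p' a' (d - (a' - z)) (by linarith) e1
          (by linarith) (by linarith) (by linarith) (by linarith) (by linarith) e2
          (Or.inr (by linarith))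
        refine ⟨m + 1, z₂, p₂, a₂, by omega, CSeq.step hs ?_ hs₂, hb₂, hz₂, ha₂⟩
        apply hok
        refine ⟨by linarith, by linarith, e2, by linarith, ?_, ?_⟩ <;> linarith
      · obtain ⟨z', p', hs, hz, hz', hp'⟩ := hzp z p a hbr (by linarith)
        have hpd : z - p = d := by linarith
        rw [hpd] at hz' hp'
        obtain ⟨e1, e2⟩ := key (a - z') (by linarith) (by linarith)
        obtain ⟨m, z₂, p₂, a₂, hm, hs₂, hb₂, hz₂, ha₂⟩ := ih z' p' a (d - (a - z')) (by linarith) e1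
          (by linarith) (by linarith) (by linarith) (by linarith) (by linarith) e2
          (Or.inl (by linarith))
        refine ⟨m + 1, z₂, p₂, a₂, by omega, CSeq.step hs ?_ hs₂, hb₂, hz₂, ha₂⟩
        apply hok
        refine ⟨by linarith, by linarith, e2, by linarith, ?_, ?_⟩ <;> linarith

/-- the twin phase: at most `k₁ + k₂` flips suffice -/
theorem twin_up {N : ℕ} {τ e lz lp la lb lr lu : ℝ} {rest : List Edge}
    (hE : EState N τ e lz lp la lb lr lu rest) {z p a b r u d₁ v₁ U₁ d₂ v₂ U₂ : ℝ}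
    (hz : -(1 / 16) ≤ z) (ha : a ≤ 0) (hp : p = a + d₁) (hv₁ : v₁ = a - z) (hv₁' : 0 < v₁)
    (hd₁ : 0 < d₁) (hd₁' : d₁ ≤ 1 / 20) (hU₁ : v₁ + 8 * lp * d₁ ^ 2 / v₁ ≤ U₁) (hU₁' : U₁ ≤ 1 / 100)
    (hb : 5 / 16 - 1 / 1000 ≤ b) (hu : u ≤ 5 / 16 + 1 / 1000) (hr : r = u + d₂) (hv₂ : v₂ = u - b)
    (hv₂' : 0 < v₂) (hd₂ : 0 < d₂) (hd₂' : d₂ ≤ 1 / 18)
    (hU₂ : v₂ + 32 * lr * d₂ ^ 2 / v₂ ≤ U₂) (hU₂' : U₂ ≤ 1 / 1000) {k₁ k₂ : ℕ}
    (hk₁ : d₁ ≤ k₁ * v₁) (hk₂ : d₂ ≤ k₂ * v₂) :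
    ∃ m c, m ≤ k₁ + k₂ ∧ CSeq N m (ech τ lz lp la lb lr lu rest z p a b r u) c ∧ WSorted c := by
  have he : e ≤ 1 / 1000000 := hE.he.trans (by norm_num)
  have hlp0 := hE.hlp.1
  have hlp1 := hE.hlp.2
  have hlr0 := hE.hlr.1
  have hlr1 := hE.hlr.2
  -- the right side stays in its range during the left flips
  have hrng : ∀ z p a b r u : ℝ, TupBR (-(1 / 16)) 0 v₁ d₁ (11 / 1000) z p a →
      TupBR (5 / 16 - 1 / 1000) (5 / 16 + 1 / 1000) v₂ d₂ (2 / 1000) b r u → TRange z p a b r u := by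
    rintro z p a b r u ⟨h1, h2, h3, h4, h5, h6⟩ ⟨g1, g2, g3, g4, g5, g6⟩
    exact ⟨by linarith, by linarith, by linarith, by linarith, by linarith, by linarith, by linarith,
      by linarith, by linarith, by linarith⟩
  have hU₁'' : v₁ + 8 * lp * d₁ / v₁ * d₁ ≤ U₁ := by
    have : 8 * lp * d₁ / v₁ * d₁ = 8 * lp * d₁ ^ 2 / v₁ := by ring
    linarith
  have hU₂'' : v₂ + 32 * lr * d₂ / v₂ * d₂ ≤ U₂ := by
    have : 32 * lr * d₂ / v₂ * d₂ = 32 * lr * d₂ ^ 2 / v₂ := by ring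
    linarith
  have hC1 : 0 ≤ 8 * lp * d₁ / v₁ * d₁ := by positivity
  have hC2 : 0 ≤ 32 * lr * d₂ / v₂ * d₂ := by positivity
  have hbr2 : TupBR (5 / 16 - 1 / 1000) (5 / 16 + 1 / 1000) v₂ d₂ (2 / 1000) b r u :=
    ⟨by linarith, by linarith, by linarith, by linarith, by linarith, by linarith⟩
  obtain ⟨m, z', p', a', hm, hs, hbr1, hzp', hpa'⟩ := tup_bounce (N := N) (κ := 8 * lp)
    (z0 := -(1 / 16)) (a0 := 0) (v₁ := v₁) (d₁ := d₁) (U := U₁) (W := 11 / 1000)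
    (C := 8 * lp * d₁ / v₁) (fun z p a => ech τ lz lp la lb lr lu rest z p a b r u)
    (by assumption) (by positivity) (by positivity) (by field_simp) (by positivity) (by nlinarith)
    (fun z p a h => ech_ok hE (hrng _ _ _ _ _ _ h hbr2))
    (fun z p a h h' => by
      obtain ⟨p', a', h1, h2, h3, h4⟩ := tstep_pa hE (hrng _ _ _ _ _ _ h hbr2) h'
      exact ⟨p', a', h1, h2, h3, h4⟩)
    (fun z p a h h' => by
      obtain ⟨z', p', h1, h2, h3, h4⟩ := tstep_zp hE (hrng _ _ _ _ _ _ h hbr2) h'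
      exact ⟨z', p', h1, h2, h3, h4⟩)
    k₁ z p a d₁ (by linarith) (by rw [← hv₁]; exact hU₁'') (by linarith) (by linarith) le_rfl hk₁
    (by linarith) (by linarith) (Or.inl hp)
  obtain ⟨m', b', r', u', hm', hs', hbr2', hbr', hru'⟩ := tup_bounce (N := N) (κ := 32 * lr)
    (z0 := 5 / 16 - 1 / 1000) (a0 := 5 / 16 + 1 / 1000) (v₁ := v₂) (d₁ := d₂) (U := U₂)
    (W := 2 / 1000)
    (C := 32 * lr * d₂ / v₂) (fun b r u => ech τ lz lp la lb lr lu rest z' p' a' b r u)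
    (by assumption) (by positivity) (by positivity) (by field_simp) (by positivity) (by nlinarith)
    (fun z p a h => ech_ok hE (hrng _ _ _ _ _ _ hbr1 h))
    (fun b r u h h' => by
      obtain ⟨r', u', h1, h2, h3, h4⟩ := tstep_ru hE (hrng _ _ _ _ _ _ hbr1 h) h'
      refine ⟨r', u', h1, h2, h3.trans ?_, h4⟩
      nlinarith)
    (fun b r u h h' => by
      obtain ⟨b', r', h1, h2, h3, h4⟩ := tstep_br hE (hrng _ _ _ _ _ _ hbr1 h) h'
      exact ⟨b', r', h1, h2, h3, h4⟩)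
    k₂ b r u d₂ (by linarith) (by rw [← hv₂]; exact hU₂'') (by linarith) (by linarith) le_rfl hk₂
    (by linarith) (by linarith) (Or.inl hr)
  exact ⟨m + m', _, by omega, tup_cseq_trans hs hs',
    ech_wsorted hE (hrng _ _ _ _ _ _ hbr1 hbr2') hzp' hpa' hbr' hru'⟩

end Pool.Agent.Helper20.Flip.Sh
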